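import Pool.Agent.Lib.MP_419f2f_co.Per

set_option autoImplicit false

/-!
Occurrences of superprimitive words in a periodic word.
A word of length `a` is a function `A : ℤ → α`, of which only the values on `[0, a)` matter.
-/

namespace Pool.Agent.MP419f2f

variable {α : Type*}

/-- the word `A` of length `a` occurs in `V` at position `p` -/
def Occ (V A : ℤ → α) (a p : ℤ) : Prop := ∀ k, 0 ≤ k → k < a → V (p + k) = A k

/-- no proper prefix of the word `A` of length `a` covers it -/
def SP (A : ℤ → α) (a : ℤ) : Prop :=
  ∀ m, 0 < m → m < a → ¬ (∀ i, 0 ≤ i → i < a →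
    ∃ p, 0 ≤ p ∧ p + m ≤ a ∧ p ≤ i ∧ i < p + m ∧ ∀ k, 0 ≤ k → k < m → A (p + k) = A k)

/-- `A` is superprimitive, covers `W`, and `W` contains the square of `A` -/
structure Good (W A : ℤ → α) (a : ℤ) : Prop where
  pos : 0 < a
  cov : ∀ i, ∃ p, Occ W A a p ∧ p ≤ i ∧ i < p + a
  sq : ∃ q, Occ W A a (q - a) ∧ Occ W A a q
  sp : SP A a

theorem SP.period {A : ℤ → α} {a d : ℤ} (h : SP A a) (hd : 0 < d) (hda : 2 * d ≤ a)
    (hper : Per A d 0 a) : False := by
  apply h (a - d) (by omega) (by omega)
  intro i hi hi'
  by_cases h1 : i < a - d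
  · refine ⟨0, le_refl _, by omega, hi, by omega, ?_⟩
    intro k _ _
    rw [zero_add]
  · refine ⟨d, by omega, by omega, by omega, by omega, ?_⟩
    intro k hk hk'
    rw [add_comm, ← hper k hk (by omega)]

theorem occ_per {V A : ℤ → α} {a p d : ℤ} (h1 : Occ V A a p) (h2 : Occ V A a (p + d))
    (hd : 0 ≤ d) : Per A d 0 a := by
  intro k hk hk'
  rw [← h1 (k + d) (by omega) hk', ← h2 k hk (by omega)]
  congr 1
  ring

theorem occ_dist {V A : ℤ → α} {a p d : ℤ} (hsp : SP A a) (h1 : Occ V A a p)
    (h2 : Occ V A a (p + d)) (hd : 0 < d) : a < 2 * d := by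
  by_contra hcon
  exact hsp.period hd (by omega) (occ_per h1 h2 hd.le)

/-- periods of the word give periods of `V` on an occurrence -/
theorem occ_per' {V A : ℤ → α} {a p d L R : ℤ} (h1 : Occ V A a p) (hper : Per A d L R)
    (hL : 0 ≤ L) (hR : R ≤ a) (hd : 0 ≤ d) : Per V d (p + L) (p + R) := by
  intro k hk hk'
  have e1 := h1 (k - p) (by omega) (by omega)
  have e2 := h1 (k - p + d) (by omega) (by omega)
  have e3 := hper (k - p) (by omega) (by omega)
  have e4 : p + (k - p) = k := by ring
  have e5 : p + (k - p + d) = k + d := by ring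
  rw [e4] at e1
  rw [e5] at e2
  rw [e1, e2, e3]

/-- the periodic extension of a word -/
def ext (B : ℤ → α) (b : ℤ) : ℤ → α := fun i => B (i % b)

theorem ext_add (B : ℤ → α) (b i : ℤ) : ext B b (i + b) = ext B b i := by
  simp [ext]

theorem ext_sub (B : ℤ → α) (b i : ℤ) : ext B b (i - b) = ext B b i := by
  rw [← ext_add B b (i - b), sub_add_cancel]

theorem ext_add_mul (B : ℤ → α) (b i m : ℤ) : ext B b (i + b * m) = ext B b i := by
  simp [ext]

theorem ext_of {B : ℤ → α} {b i : ℤ} (h0 : 0 ≤ i) (h1 : i < b) : ext B b i = B i := by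
  simp [ext, Int.emod_eq_of_lt h0 h1]

theorem Occ.shift {B A : ℤ → α} {a b p : ℤ} (h : Occ (ext B b) A a p) (m : ℤ) :
    Occ (ext B b) A a (p + b * m) := by
  intro k hk hk'
  rw [← h k hk hk']
  have : p + b * m + k = p + k + b * m := by ring
  rw [this, ext_add_mul]

/-- a shorter good word occurs at least twice (cyclically) in a longer one -/
theorem two_occ {W A B : ℤ → α} {a b : ℤ} (hA : Good W A a) (hB : Good W B b) (hab : a < b) :
    ∃ u g, 0 < g ∧ g < b ∧ Occ (ext B b) A a u ∧ Occ (ext B b) A a (u + g) := by
  by_contra hcon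
  push Not at hcon
  have ha := hA.pos
  obtain ⟨q, hq1, hq2⟩ := hB.sq
  set V := ext B b with hV
  -- `V` agrees with `W` around `q`
  have hVW : ∀ i, -b ≤ i → i < b → V i = W (q + i) := by
    intro i h1 h2
    by_cases h0 : 0 ≤ i
    · rw [hV, ext_of h0 h2, hq2 i h0 h2]
    · have e1 := hq1 (i + b) (by omega) (by omega)
      rw [hV, ← ext_add, ext_of (by omega) (by omega), ← e1]
      congr 1
      ring
  have hocc : ∀ r, Occ W A a (q + r) → -b ≤ r → r + a ≤ b → Occ V A a r := by
    intro r hr h1 h2 k hk hk'
    rw [hVW _ (by omega) (by omega), ← hr k hk hk']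
    congr 1
    ring
  obtain ⟨p0, hp0, hp1, hp2⟩ := hA.cov q
  set p := p0 - q with hp
  have hp0' : Occ W A a (q + p) := by
    rw [hp, add_sub_cancel]; exact hp0
  have hVp : Occ V A a p := hocc p hp0' (by omega) (by omega)
  by_cases hpz : p = 0
  · obtain ⟨r0, hr0, hr1, hr2⟩ := hA.cov (q - (b - a))
    have hr0' : Occ W A a (q + (r0 - q)) := by
      rw [add_sub_cancel]; exact hr0
    have hVr := hocc (r0 - q) hr0' (by omega) (by omega)
    apply hcon (r0 - q) (-(r0 - q)) (by omega) (by omega) hVr
    rw [add_neg_cancel, ← hpz]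
    exact hVp
  · obtain ⟨r0, hr0, hr1, hr2⟩ := hA.cov (p0 - 1)
    set q' := r0 - q with hq'
    have hr0' : Occ W A a (q + q') := by
      rw [hq', add_sub_cancel]; exact hr0
    have hq'b : q' < -b := by
      by_contra hge
      have hVr := hocc q' hr0' (by omega) (by omega)
      apply hcon q' (p - q') (by omega) (by omega) hVr
      rw [add_sub_cancel]; exact hVp
    obtain ⟨r1, hr3, hr4, hr5⟩ := hA.cov (p0 + a)
    set p' := r1 - q with hp'
    have hr3' : Occ W A a (q + p') := by
      rw [hp', add_sub_cancel]; exact hr3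
    have hp'b : b - a < p' := by
      by_contra hge
      have hVr := hocc p' hr3' (by omega) (by omega)
      apply hcon p (p' - p) (by omega) (by omega) hVp
      rw [add_sub_cancel]; exact hVr
    set s := b + q' - p with hs
    set t := b - p' + p with ht
    -- period `s` on a suffix
    have per1 : Per A s (-p - s) a := by
      intro k hk hk'
      -- position i = k + b + q'
      have e1 := hr0' k (by omega) (by omega)
      have e2 := hVp (k + s) (by omega) (by omega)
      rw [← e1, ← e2]
      have e3 : p + (k + s) = (q' + k) + b := by rw [hs]; ring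
      rw [e3, hV, ext_add, ← hV, hVW _ (by omega) (by omega)]
      congr 1
      ring
    have per2 : Per A t 0 (-p + t) := by
      intro k hk hk'
      have e1 := hVp k (by omega) (by omega)
      have e2 := hr3' (k + t) (by omega) (by omega)
      rw [← e1, ← e2]
      have e3 : q + p' + (k + t) = q + (p + k + b) := by rw [ht]; ring
      rw [e3, ← hVW _ (by omega) (by omega), hV, ext_add]
    have hs0 : 0 < s := by omega
    have ht0 : 0 < t := by omega
    have key := fw_union (c := -p - s) hs0 ht0 per1 per2 le_rfl (by omega) (by omega) (by omega)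
    obtain ⟨k1, k2⟩ := key
    set d : ℤ := (Int.gcd s t : ℤ) with hd
    have hd0 : 0 < d := by
      have := Int.gcd_pos_of_ne_zero_left t hs0.ne'
      rw [hd]; exact_mod_cast this
    have hds : d ≤ s := Int.le_of_dvd hs0 (Int.gcd_dvd_left _ _)
    have hdt : d ≤ t := Int.le_of_dvd ht0 (Int.gcd_dvd_right _ _)
    apply hA.sp.period hd0 (by omega)
    intro k hk hk'
    by_cases h1 : k + d < -p + t
    · exact k2 k hk h1
    · exact k1 k (by omega) hk'

/-- normal form of the two occurrences when the lengths are close -/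
theorem two_occ' {W A B : ℤ → α} {a b : ℤ} (hA : Good W A a) (hB : Good W B b) (hab : a < b)
    (hclose : 2 * (b - a) < a) :
    ∃ u g, a < 2 * g ∧ 2 * g < b ∧ Occ (ext B b) A a u ∧ Occ (ext B b) A a (u + g) := by
  obtain ⟨u, g, hg0, hgb, h1, h2⟩ := two_occ hA hB hab
  have hb := hB.pos
  have h3 : Occ (ext B b) A a (u + g + (b - g)) := by
    have := h1.shift 1
    have e : u + g + (b - g) = u + b * 1 := by ring
    rw [e]; exact this
  have d1 := occ_dist hA.sp h1 h2 hg0
  have d2 := occ_dist hA.sp h2 h3 (by omega)
  rcases lt_trichotomy (2 * g) b with h | h | h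
  · exact ⟨u, g, d1, h, h1, h2⟩
  · exfalso
    -- `B` is a square
    have hV : ∀ i, ext B b i = ext B b (i + g) := by
      intro i
      set V := ext B b with hVd
      -- write i = u + k + b * m
      have e1 := Int.emod_nonneg (i - u) hb.ne'
      have e2 := Int.emod_lt_of_pos (i - u) hb
      have e3 := Int.emod_add_mul_ediv (i - u) b
      set k := (i - u) % b with hk
      set m := (i - u) / b with hm
      have e4 : i = u + k + b * m := by omega
      have e5 : V i = V (u + k) := by
        rw [e4, hVd, ext_add_mul]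
      have e6 : V (i + g) = V (u + k + g) := by
        have : i + g = u + k + g + b * m := by omega
        rw [this, hVd, ext_add_mul]
      rw [e5, e6]
      by_cases hka : k < a
      · rw [h1 k e1 hka]
        have := h2 k e1 hka
        rw [← this]
        congr 1
        ring
      · have f1 := h1 (k - g) (by omega) (by omega)
        have f2 := h2 (k - g) (by omega) (by omega)
        have f3 : u + g + (k - g) = u + k := by ring
        rw [f3] at f2
        rw [f2, ← f1]
        have f4 : u + k + g = u + (k - g) + b := by omega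
        rw [f4, hVd, ext_add]
    apply hB.sp.period hg0 (by omega)
    intro k hk hk'
    have := hV k
    rw [ext_of hk (by omega), ext_of (by omega) hk'] at this
    exact this
  · refine ⟨u + g, b - g, d2, by omega, h2, h3⟩

end Pool.Agent.MP419f2f
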