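import Mathlib

set_option autoImplicit false

/-!
Periods of functions on integer intervals, and the theorem of Fine and Wilf.
-/

namespace Pool.Agent.MP419f2f

variable {α : Type*}

/-- `f` has period `d` on the interval `[L, R)` -/
def Per (f : ℤ → α) (d L R : ℤ) : Prop := ∀ k, L ≤ k → k + d < R → f k = f (k + d)

theorem Per.mono {f : ℤ → α} {d L R L' R' : ℤ} (h : Per f d L R) (h1 : L ≤ L') (h2 : R' ≤ R) :
    Per f d L' R' := fun k hk hk' => h k (by omega) (by omega)

theorem Per.nat {f : ℤ → α} {d L R : ℤ} (h : Per f d L R) (hd : 0 ≤ d) (n : ℕ) :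
    ∀ k, L ≤ k → k + n * d < R → f k = f (k + n * d) := by
  induction n with
  | zero => intro k _ _; simp
  | succ n ih =>
    intro k hk hk'
    have h1 : k + n * d ≤ k + ((n + 1 : ℕ) : ℤ) * d := by
      push_cast
      nlinarith
    rw [ih k hk (by
      push_cast at hk' ⊢
      nlinarith)]
    have h2 := h (k + n * d) (by
      have : (0 : ℤ) ≤ n * d := by positivity
      omega) (by
      push_cast at hk'
      have : k + n * d + d = k + (n + 1) * d := by ring
      rw [this]; exact hk')
    rw [h2]
    congr 1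
    push_cast
    ring

theorem Per.congr {f : ℤ → α} {d L R : ℤ} (h : Per f d L R) (hd : 0 < d) {k k' : ℤ}
    (hk : L ≤ k) (hkR : k < R) (hk' : L ≤ k') (hkR' : k' < R) (hdvd : d ∣ k' - k) :
    f k = f k' := by
  obtain ⟨m, hm⟩ := hdvd
  rcases le_total 0 m with h0 | h0
  · obtain ⟨n, rfl⟩ := Int.eq_ofNat_of_zero_le h0
    have h1 : k' = k + n * d := by
      have : d * (n : ℤ) = n * d := mul_comm _ _
      omega
    rw [h1]
    apply h.nat hd.le n k hk
    rw [← h1]; exact hkR'
  · obtain ⟨n, hn⟩ := Int.eq_ofNat_of_zero_le (show 0 ≤ -m by omega)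
    have h1 : k = k' + n * d := by
      have h2 : d * m = -(n * d) := by
        rw [← hn]; ring
      omega
    rw [h1]
    symm
    apply h.nat hd.le n k' hk'
    rw [← h1]; exact hkR

/-- extension of a period `d` from a window of length at least `t` -/
theorem Per.extend {f : ℤ → α} {t d L R c c' : ℤ} (h : Per f t L R) (ht : 0 < t) (hd : 0 < d)
    (hdt : d ∣ t) (hw : Per f d c c') (hLc : L ≤ c) (hcR : c' ≤ R) (hlen : c + t ≤ c') :
    Per f d L R := by
  intro k hk hk'
  have key : ∀ j, L ≤ j → j < R → f j = f (c + (j - c) % t) := by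
    intro j hj hj'
    have h1 := Int.emod_nonneg (j - c) ht.ne'
    have h2 := Int.emod_lt_of_pos (j - c) ht
    apply h.congr ht hj hj' (by omega) (by omega)
    have h3 : c + (j - c) % t - j = -(t * ((j - c) / t)) := by
      have := Int.emod_add_mul_ediv (j - c) t
      omega
    rw [h3]
    exact (Dvd.intro _ rfl).neg_right
  rw [key k hk (by omega), key (k + d) (by omega) hk']
  have h1 := Int.emod_nonneg (k - c) ht.ne'
  have h2 := Int.emod_lt_of_pos (k - c) ht
  have h3 := Int.emod_nonneg (k + d - c) ht.ne'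
  have h4 := Int.emod_lt_of_pos (k + d - c) ht
  apply hw.congr hd (by omega) (by omega) (by omega) (by omega)
  have h5 : c + (k + d - c) % t - (c + (k - c) % t) =
      d - t * ((k + d - c) / t) + t * ((k - c) / t) := by
    have e1 := Int.emod_add_mul_ediv (k + d - c) t
    have e2 := Int.emod_add_mul_ediv (k - c) t
    omega
  rw [h5]
  exact Dvd.dvd.add (Dvd.dvd.sub (dvd_refl d) (hdt.mul_right _)) (hdt.mul_right _)

/-- Fine and Wilf on a window of length `s + t` -/
theorem fine_wilf {f : ℤ → α} {s t L : ℤ} (hs : 0 < s) (ht : 0 < t)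
    (h1 : Per f s L (L + s + t)) (h2 : Per f t L (L + s + t)) :
    Per f (Int.gcd s t : ℤ) L (L + s + t) := by
  set h : ℤ → α := fun j => f (L + j % (s + t)) with hh
  have hst : 0 < s + t := by omega
  have p1 : Function.Periodic h (s + t) := by
    intro j
    simp only [hh]
    rw [Int.add_emod_right]
  have p2 : Function.Periodic h s := by
    intro j
    simp only [hh]
    have e1 := Int.emod_nonneg j hst.ne'
    have e2 := Int.emod_lt_of_pos j hst
    set m := j % (s + t) with hm
    have e3 : (j + s) % (s + t) = (m + s) % (s + t) := by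
      rw [hm, Int.emod_add_emod]
    rw [e3]
    by_cases hmt : m < t
    · rw [Int.emod_eq_of_lt (by omega) (by omega)]
      have := h1 (L + m) (by omega) (by omega)
      rw [this, add_assoc]
    · have e4 : (m + s) % (s + t) = m - t := by
        have : m + s = (m - t) + (s + t) := by ring
        rw [this, Int.add_emod_right, Int.emod_eq_of_lt (by omega) (by omega)]
      rw [e4]
      have := h2 (L + (m - t)) (by omega) (by omega)
      rw [this]
      congr 1
      ring
  have p3 : Function.Periodic h t := by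
    have := p1.sub_period p2
    simpa using this
  have p4 : Function.Periodic h (Int.gcd s t : ℤ) := by
    have e := Int.gcd_eq_gcd_ab s t
    rw [e]
    have q1 := p2.zsmul (Int.gcdA s t)
    have q2 := p3.zsmul (Int.gcdB s t)
    have q3 := q1.add_period q2
    simpa [mul_comm] using q3
  intro k hk hk'
  have hgp : 0 < (Int.gcd s t : ℤ) := by
    have := Int.gcd_pos_of_ne_zero_left t hs.ne'
    exact_mod_cast this
  have e1 : h (k - L) = f k := by
    simp only [hh]
    rw [Int.emod_eq_of_lt (by omega) (by omega)]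
    congr 1
    ring
  have e2 : h (k - L + (Int.gcd s t : ℤ)) = f (k + (Int.gcd s t : ℤ)) := by
    simp only [hh]
    rw [Int.emod_eq_of_lt (by omega) (by omega)]
    congr 1
    ring
  rw [← e1, ← e2, p4]

/-- two intervals with periods `s`, `t` and a common subinterval of length `s + t` -/
theorem fw_union {f : ℤ → α} {s t L1 R1 L2 R2 c : ℤ} (hs : 0 < s) (ht : 0 < t)
    (h1 : Per f s L1 R1) (h2 : Per f t L2 R2) (a1 : L1 ≤ c) (a2 : L2 ≤ c)
    (b1 : c + s + t ≤ R1) (b2 : c + s + t ≤ R2) :
    Per f (Int.gcd s t : ℤ) L1 R1 ∧ Per f (Int.gcd s t : ℤ) L2 R2 := by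
  have hgp : 0 < (Int.gcd s t : ℤ) := by
    have := Int.gcd_pos_of_ne_zero_left t hs.ne'
    exact_mod_cast this
  have hw := fine_wilf (L := c) hs ht (h1.mono a1 b1) (h2.mono a2 b2)
  exact ⟨h1.extend hs hgp (Int.gcd_dvd_left _ _) hw a1 b1 (by omega),
    h2.extend ht hgp (Int.gcd_dvd_right _ _) hw a2 b2 (by omega)⟩

end Pool.Agent.MP419f2f
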