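import Pool.Agent.Lib.MP_419f2f_co.Occ

set_option autoImplicit false

/-!
Three good words with lengths within a factor `1 + 1/20` cannot exist.
-/

namespace Pool.Agent.MP419f2f

variable {α : Type*}

theorem halves {V : ℤ → α} {b d g z m : ℤ} (hb : ∀ i, V (i + b) = V i) (hd : 0 < d)
    (hdz : d ≤ z) (hz : ∀ k, -z ≤ k → k < z → V k = V (k + g))
    (h1 : Per V d 0 g) (h2 : Per V d g b) (hm1 : m ≤ g) (hm2 : m ≤ b - g) :
    (∀ k, 0 ≤ k → k < m → V (g + k) = V k) ∧
    (∀ k, 0 ≤ k → k < m → V (b - m + k) = V (g - m + k)) := by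
  constructor
  · intro k hk hk'
    have e1 := Int.emod_nonneg k hd.ne'
    have e2 := Int.emod_lt_of_pos k hd
    have e3 := Int.emod_add_mul_ediv k d
    set r := k % d with hr
    have hrk : r ≤ k := by
      have : 0 ≤ d * (k / d) := mul_nonneg hd.le (Int.ediv_nonneg hk hd.le)
      omega
    have hdv : d ∣ k - r := ⟨k / d, by omega⟩
    have f1 : V r = V k := h1.congr hd (by omega) (by omega) (by omega) (by omega) hdv
    have f2 := hz r (by omega) (by omega)
    have f3 : V (r + g) = V (g + k) := by
      apply h2.congr hd (by omega) (by omega) (by omega) (by omega)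
      have : g + k - (r + g) = k - r := by ring
      rw [this]; exact hdv
    rw [← f3, ← f2, f1]
  · intro k hk hk'
    have hk2 : 0 ≤ m - 1 - k := by omega
    have e1 := Int.emod_nonneg (m - 1 - k) hd.ne'
    have e2 := Int.emod_lt_of_pos (m - 1 - k) hd
    have e3 := Int.emod_add_mul_ediv (m - 1 - k) d
    set r := (m - 1 - k) % d with hr
    have hrk : r ≤ m - 1 - k := by
      have : 0 ≤ d * ((m - 1 - k) / d) := mul_nonneg hd.le (Int.ediv_nonneg hk2 hd.le)
      omega
    have hdv : d ∣ m - 1 - k - r := ⟨(m - 1 - k) / d, by omega⟩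
    have f1 : V (b - m + k) = V (-1 - r + b) := by
      apply h2.congr hd (by omega) (by omega) (by omega) (by omega)
      have : -1 - r + b - (b - m + k) = m - 1 - k - r := by ring
      rw [this]; exact hdv
    have f2 := hz (-1 - r) (by omega) (by omega)
    have f3 : V (g - m + k) = V (-1 - r + g) := by
      apply h1.congr hd (by omega) (by omega) (by omega) (by omega)
      have : -1 - r + g - (g - m + k) = m - 1 - k - r := by ring
      rw [this]; exact hdv
    rw [f1, hb, f2, f3]

theorem cover_contra {B : ℤ → α} {b g m : ℤ} (hsp : SP B b) (hm0 : 0 < m) (hmb : 2 * m ≤ b)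
    (hm3 : b ≤ 3 * m) (hm : m = g ∨ m = b - g)
    (F1 : ∀ k, 0 ≤ k → k < m → ext B b (g + k) = ext B b k)
    (F2 : ∀ k, 0 ≤ k → k < m → ext B b (b - m + k) = ext B b (g - m + k)) : False := by
  have F1' : ∀ k, 0 ≤ k → k < m → g + m ≤ b → 0 ≤ g → B (g + k) = B k := by
    intro k hk hk' h1 h2
    have := F1 k hk hk'
    rwa [ext_of (by omega) (by omega), ext_of (by omega) (by omega)] at this
  have F2' : ∀ k, 0 ≤ k → k < m → 0 ≤ g - m → g ≤ b → B (b - m + k) = B (g - m + k) := by
    intro k hk hk' h1 h2
    have := F2 k hk hk'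
    rwa [ext_of (by omega) (by omega), ext_of (by omega) (by omega)] at this
  apply hsp m hm0 (by omega)
  intro i hi hi'
  rcases hm with rfl | hm
  · rcases lt_or_ge i m with h | h
    · exact ⟨0, le_rfl, by omega, hi, by omega, fun k _ _ => by rw [zero_add]⟩
    · rcases lt_or_ge i (2 * m) with h' | h'
      · refine ⟨m, by omega, by omega, by omega, by omega, ?_⟩
        intro k hk hk'
        exact F1' k hk hk' (by omega) (by omega)
      · refine ⟨b - m, by omega, by omega, by omega, by omega, ?_⟩
        intro k hk hk'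
        rw [F2' k hk hk' (by omega) (by omega)]
        congr 1
        ring
  · have hg : g = b - m := by omega
    subst hg
    rcases lt_or_ge i m with h | h
    · exact ⟨0, le_rfl, by omega, hi, by omega, fun k _ _ => by rw [zero_add]⟩
    · rcases lt_or_ge i (b - m) with h' | h'
      · refine ⟨b - m - m, by omega, by omega, by omega, by omega, ?_⟩
        intro k hk hk'
        rw [← F2' k hk hk' (by omega) (by omega)]
        exact F1' k hk hk' (by omega) (by omega)
      · refine ⟨b - m, by omega, by omega, by omega, by omega, ?_⟩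
        intro k hk hk'
        exact F1' k hk hk' (by omega) (by omega)

/-- the two halves of `B` are `d`-periodic -/
theorem arcs {V : ℤ → α} {b d g z y p : ℤ} (hb : ∀ i, V (i + b) = V i) (hd : 0 < d)
    (hy : y = b - p) (P1 : Per V d 0 y) (P2 : Per V d p b)
    (hz : ∀ k, -z ≤ k → k < z → V k = V (k + g))
    (i1 : g + d ≤ y + z) (i2 : d + g ≤ 2 * y) (i3 : p - g + d ≤ z) (i4 : p - g + d ≤ y)
    (i5 : d ≤ z) :
    Per V d 0 g ∧ Per V d g b := by
  constructor
  · intro k hk hk'
    by_cases h : k + d < y
    · exact P1 k hk h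
    · have f1 := hz (k - g) (by omega) (by omega)
      have f2 := hz (k + d - g) (by omega) (by omega)
      rw [sub_add_cancel] at f1 f2
      rw [← f1, ← f2, ← hb (k - g), ← hb (k + d - g)]
      have := P2 (k - g + b) (by omega) (by omega)
      rw [this]
      congr 1
      ring
  · intro k hk hk'
    by_cases h : p ≤ k
    · exact P2 k h hk'
    · have f1 := hz (k - g) (by omega) (by omega)
      have f2 := hz (k + d - g) (by omega) (by omega)
      rw [sub_add_cancel] at f1 f2
      rw [← f1, ← f2]
      have := P1 (k - g) (by omega) (by omega)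
      rw [this]
      congr 1
      ring

/-- finishing step, from the agreement around the origin -/
theorem finish {B : ℤ → α} {b d g z y p m : ℤ} (hsp : SP B b) (hd : 0 < d)
    (hy : y = b - p) (P1 : Per (ext B b) d 0 y) (P2 : Per (ext B b) d p b)
    (hz : ∀ k, -z ≤ k → k < z → ext B b k = ext B b (k + g))
    (i1 : g + d ≤ y + z) (i2 : d + g ≤ 2 * y) (i3 : p - g + d ≤ z) (i4 : p - g + d ≤ y)
    (i5 : d ≤ z) (hm0 : 0 < m) (hmb : 2 * m ≤ b)
    (hm3 : b ≤ 3 * m) (hm : m = g ∨ m = b - g) : False := by
  obtain ⟨h1, h2⟩ := arcs (fun i => ext_add B b i) hd hy P1 P2 hz i1 i2 i3 i4 i5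
  obtain ⟨F1, F2⟩ := halves (m := m) (fun i => ext_add B b i) hd i5 hz h1 h2
    (by omega) (by omega)
  exact cover_contra hsp hm0 hmb hm3 hm F1 F2

/-- periods `t` and `t + r` give period `r` on a prefix and a suffix -/
theorem two_per {A : ℤ → α} {a t r : ℤ} (hr : 0 ≤ r)
    (h1 : Per A t 0 a) (h2 : Per A (t + r) 0 a) :
    Per A r 0 (a - t) ∧ Per A r t a := by
  constructor
  · intro k hk hk'
    have f1 := h2 k hk (by omega)
    have f2 := h1 (k + r) (by omega) (by omega)
    rw [f1, f2]
    congr 1
    ring
  · intro k hk hk'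
    have f1 := h1 (k - t) (by omega) (by omega)
    have f2 := h2 (k - t) (by omega) (by omega)
    rw [sub_add_cancel] at f1
    rw [← f1, f2]
    congr 1
    ring

theorem three {W A B C : ℤ → α} {a b c : ℤ} (hA : Good W A a) (hB : Good W B b)
    (hC : Good W C c) (hab : a < b) (hbc : b < c) (hclose : 20 * (c - a) ≤ a) : False := by
  obtain ⟨u, g, hg1, hg2, hu, hug⟩ := two_occ' hA hB hab (by omega)
  obtain ⟨v, p, hp1, hp2, hv, hvp⟩ := two_occ' hB hC hbc (by omega)
  have hsc : Occ (ext B b) A a (u + b) := by simpa using hu.shift 1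
  have hvc : Occ (ext C c) B b (v + c) := by simpa using hv.shift 1
  -- periods of A
  have hAg : Per A g 0 a := occ_per hu hug (by omega)
  have hAg' : Per A (g + (b - 2 * g)) 0 a := by
    have e : u + b = u + g + (g + (b - 2 * g)) := by ring
    rw [e] at hsc
    exact occ_per hug hsc (by omega)
  have hBp : Per B p 0 b := occ_per hv hvp (by omega)
  have hBp' : Per B (p + (c - 2 * p)) 0 b := by
    have e : v + c = v + p + (p + (c - 2 * p)) := by ring
    rw [e] at hvc
    exact occ_per hvp hvc (by omega)
  obtain ⟨A1, A2⟩ := two_per (by omega) hAg hAg'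
  obtain ⟨B1, B2⟩ := two_per (by omega) hBp hBp'
  set δ := b - 2 * g with hδ
  set ρ := c - 2 * p with hρ
  set x := a - g with hx
  set y := b - p with hy
  -- transport to V
  have V1 : Per (ext B b) ρ 0 y := by
    intro k hk hk'
    rw [ext_of hk (by omega), ext_of (by omega) (by omega)]
    exact B1 k hk hk'
  have V2 : Per (ext B b) ρ p b := by
    intro k hk hk'
    rw [ext_of (by omega) (by omega), ext_of (by omega) (by omega)]
    exact B2 k hk hk'
  have V0 : ∀ k, 0 ≤ k → k < y → ext B b k = ext B b (k + p) := by
    intro k hk hk'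
    rw [ext_of (by omega) (by omega), ext_of (by omega) (by omega)]
    exact hBp k hk (by omega)
  set V := ext B b with hV
  set d : ℤ := (Int.gcd δ ρ : ℤ) with hd
  have hδ0 : 0 < δ := by omega
  have hρ0 : 0 < ρ := by omega
  have hd0 : 0 < d := by
    have := Int.gcd_pos_of_ne_zero_left ρ hδ0.ne'
    rw [hd]; exact_mod_cast this
  have hdδ : d ≤ δ := Int.le_of_dvd hδ0 (Int.gcd_dvd_left _ _)
  have hdρ : d ≤ ρ := Int.le_of_dvd hρ0 (Int.gcd_dvd_right _ _)
  -- P1, P2, and A
  have main : Per V d 0 y ∧ Per V d p b ∧ Per A d 0 x ∧ Per A d g a := by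
    -- normalise
    have e1 := Int.emod_nonneg (u + g) (show b ≠ 0 by omega)
    have e2 := Int.emod_lt_of_pos (u + g) (show 0 < b by omega)
    have e3 := Int.emod_add_mul_ediv (u + g) b
    set s := (u + g) % b with hs
    have hs1 : Occ V A a s := by
      have := hug.shift (-((u + g) / b))
      have e4 : u + g + b * -((u + g) / b) = s := by
        rw [mul_neg]; omega
      rwa [e4] at this
    have hs0 : Occ V A a (s - g) := by
      have := hu.shift (-((u + g) / b))
      have e4 : u + b * -((u + g) / b) = s - g := by
        rw [mul_neg]; omega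
      rwa [e4] at this
    have Q : Per V δ s (s + x) := by
      have := occ_per' hs1 A1 le_rfl (by omega) (by omega)
      simpa using this
    have up : Per V d 0 y → Per V d p b := by
      intro h k hk hk'
      have f1 := V0 (k - p) (by omega) (by omega)
      have f2 := V0 (k + d - p) (by omega) (by omega)
      rw [sub_add_cancel] at f1 f2
      rw [← f1, ← f2]
      have := h (k - p) (by omega) (by omega)
      rw [this]
      congr 1
      ring
    have down : Per V d p b → Per V d 0 y := by
      intro h k hk hk'
      have f1 := V0 k (by omega) (by omega)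
      have f2 := V0 (k + d) (by omega) (by omega)
      rw [f1, f2]
      have := h (k + p) (by omega) (by omega)
      rw [this]
      congr 1
      ring
    have fin : Per V d s (s + x) → Per A d 0 x ∧ Per A d g a := by
      intro h
      constructor
      · intro k hk hk'
        rw [← hs1 k hk (by omega), ← hs1 (k + d) (by omega) (by omega)]
        have := h (s + k) (by omega) (by omega)
        rw [this]
        congr 1
        ring
      · intro k hk hk'
        rw [← hs0 k (by omega) (by omega), ← hs0 (k + d) (by omega) (by omega)]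
        have := h (s - g + k) (by omega) (by omega)
        rw [this]
        congr 1
        ring
    rcases lt_or_ge s (y - (δ + ρ)) with c1 | c1
    · obtain ⟨k1, k2⟩ := fw_union (c := s) hδ0 hρ0 Q V1 le_rfl (by omega) (by omega) (by omega)
      exact ⟨k2, up k2, fin k1⟩
    rcases le_or_gt s p with c2 | c2
    · obtain ⟨k1, k2⟩ := fw_union (c := p) hδ0 hρ0 Q V2 (by omega) (by omega) (by omega)
        (by omega)
      exact ⟨down k2, k2, fin k1⟩
    rcases le_or_gt s (b - (δ + ρ)) with c3 | c3
    · obtain ⟨k1, k2⟩ := fw_union (c := s) hδ0 hρ0 Q V2 (by omega) (by omega) (by omega)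
        (by omega)
      exact ⟨down k2, k2, fin k1⟩
    · have V3 : Per V ρ b (b + y) := by
        intro k hk hk'
        have := V1 (k - b) (by omega) (by omega)
        have e : k - b + ρ = k + ρ - b := by ring
        rw [e, hV, ext_sub, ext_sub] at this
        exact this
      obtain ⟨k1, k2⟩ := fw_union (c := b) hδ0 hρ0 Q V3 (by omega) (by omega) (by omega)
        (by omega)
      have k3 : Per V d 0 y := by
        intro k hk hk'
        have := k2 (k + b) (by omega) (by omega)
        have e : k + b + d = k + d + b := by ring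
        rw [← hd, e, hV, ext_add, ext_add] at this
        exact this
      exact ⟨k3, up k3, fin k1⟩
  obtain ⟨P1, P2, PA1, PA2⟩ := main
  -- mismatch
  obtain ⟨k0, m1, m2, m3⟩ : ∃ k0, x - d ≤ k0 ∧ k0 < g ∧ A k0 ≠ A (k0 + d) := by
    by_contra hcon
    push Not at hcon
    apply hA.sp.period hd0 (by omega)
    intro k hk hk'
    rcases lt_or_ge k (x - d) with h | h
    · exact PA1 k hk (by omega)
    · rcases lt_or_ge k g with h' | h'
      · exact hcon k h h'
      · exact PA2 k h' hk'
  have mism : ∀ q, Occ V A a q → V (q + k0) ≠ V (q + k0 + d) := by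
    intro q hq
    have := hq (k0 + d) (by omega) (by omega)
    rw [← add_assoc] at this
    rw [hq k0 (by omega) (by omega), this]
    exact m3
  -- normalise the mismatch
  have e1 := Int.emod_nonneg (u + k0 + d) (show b ≠ 0 by omega)
  have e2 := Int.emod_lt_of_pos (u + k0 + d) (show 0 < b by omega)
  have e3 := Int.emod_add_mul_ediv (u + k0 + d) b
  obtain ⟨w, hw0, hw1, hwr1, hwr2⟩ : ∃ w, Occ V A a w ∧ Occ V A a (w + g) ∧
      -d ≤ w + k0 ∧ w + k0 < b - d := by
    refine ⟨u + b * -((u + k0 + d) / b), hu.shift _, ?_, ?_, ?_⟩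
    · have := hug.shift (-((u + k0 + d) / b))
      have e : u + g + b * -((u + k0 + d) / b) = u + b * -((u + k0 + d) / b) + g := by ring
      rwa [e] at this
    · rw [mul_neg]; omega
    · rw [mul_neg]; omega
  have mm0 := mism w hw0
  have mm1 := mism (w + g) hw1
  have agree : ∀ k, w ≤ k → k < w + a → V k = V (k + g) := by
    intro k hk hk'
    have f1 := hw0 (k - w) (by omega) (by omega)
    have f2 := hw1 (k - w) (by omega) (by omega)
    have e4 : w + (k - w) = k := by ring
    have e5 : w + g + (k - w) = k + g := by ring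
    rw [e4] at f1
    rw [e5] at f2
    rw [f1, f2]
  by_cases hI : w + k0 < 0
  · -- Case I
    refine finish (m := g) (z := x - d) (g := g) hB.sp hd0 hy P1 P2 ?_ (by omega) (by omega)
      (by omega) (by omega) (by omega) (by omega) (by omega) (by omega) (Or.inl rfl)
    intro k hk hk'
    exact agree k (by omega) (by omega)
  · -- Case II
    have hII1 : y - d ≤ w + k0 := by
      by_contra h
      exact mm0 (P1 _ (by omega) (by omega))
    have hII2 : w + k0 < p := by
      by_contra h
      exact mm0 (P2 _ (by omega) (by omega))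
    have hII3 : w + g + k0 < b := by
      by_contra h
      apply mm1
      have := P1 (w + g + k0 - b) (by omega) (by omega)
      have e : w + g + k0 - b + d = w + g + k0 + d - b := by ring
      rw [e, hV, ext_sub, ext_sub] at this
      exact this
    have hII4 : b - d ≤ w + g + k0 := by
      by_contra h
      exact mm1 (P2 _ (by omega) (by omega))
    refine finish (m := g) (z := x - d) (g := b - g) hB.sp hd0 hy P1 P2 ?_ (by omega)
      (by omega) (by omega) (by omega) (by omega) (by omega) (by omega) (by omega)
      (Or.inr (by ring))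
    intro k hk hk'
    have := agree (k + b - g) (by omega) (by omega)
    rw [sub_add_cancel, hV, ext_add] at this
    rw [← hV] at this
    rw [← hV, ← this]
    congr 1
    ring

end Pool.Agent.MP419f2f
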